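import Mathlib

/-!
Subgroups of the Baer-Specker group: under CH there is a subgroup all of whose elements are
infinitely often small, and which contains for every increasing sequence an element which is large
at every interval of the sequence.
-/

set_option autoImplicit false

open Set

namespace Pool.Agent.H656R2.OB

/-- `x` is small infinitely often -/
def Sm (x : ℕ → ℤ) : Prop := ∀ N : ℕ, ∃ m ≥ N, ∀ i < m, |x i| ≤ (m : ℤ) ^ 2

/-- `x` is large at the sequence `k` -/
def Dom (x : ℕ → ℤ) (k : ℕ → ℕ) : Prop :=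
  ∃ N : ℕ, ∀ n ≥ N, ∃ i < k n, (k (n + 1) : ℤ) < |x i|

/-! ### One step -/

section step

variable {S : Type} (H : ℕ → ℕ → ℤ) (c : ℕ → ℕ) (k : ℕ → ℕ) (nx : ℕ → ℕ → ℕ)

/-- the lower bound for the next index and the bound for the former values -/
noncomputable def st : ℕ → ℕ × ℕ
  | 0 => (0, 0)
  | j + 1 =>
    let n := nx j ((st j).1 + (c j + 1) * ((st j).2 + 4))
    (n + 1, (st j).2 + ∑ i ∈ Finset.range (k (n + 1)), (H j i).natAbs)

/-- the index for the cancellation number `j` -/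
noncomputable def nn (j : ℕ) : ℕ :=
  nx j ((st H c k nx j).1 + (c j + 1) * ((st H c k nx j).2 + 4))

open Classical in
/-- the new element -/
noncomputable def gg (i : ℕ) : ℤ :=
  if h : ∃ n, i + 1 = k (n + 1) then (k (h.choose + 2) : ℤ) + 1
  else if h : ∃ j, k (nn H c k nx j) ≤ i ∧ i + 1 < k (nn H c k nx j + 1) then
    -(H h.choose i / c h.choose)
  else 0

variable (hnx : ∀ j M, M ≤ nx j M ∧ ∀ i < k (nx j M), |H j i| ≤ (k (nx j M + 1) : ℤ))
  (hk : StrictMono k) (hc : ∀ j, 1 ≤ c j)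
include hnx

theorem nn_ge (j : ℕ) : (st H c k nx j).1 + (c j + 1) * ((st H c k nx j).2 + 4) ≤ nn H c k nx j :=
  (hnx j _).1

theorem nn_small (j : ℕ) : ∀ i < k (nn H c k nx j), |H j i| ≤ (k (nn H c k nx j + 1) : ℤ) :=
  (hnx j _).2

theorem nn_lt (j : ℕ) : nn H c k nx j < nn H c k nx (j + 1) := by
  have h := nn_ge H c k nx hnx (j + 1)
  have h1 : (st H c k nx (j + 1)).1 = nn H c k nx j + 1 := rfl
  rw [h1] at h
  exact Nat.lt_of_lt_of_le (Nat.lt_succ_self _) ((Nat.le_add_right _ _).trans h)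

theorem nn_mono : StrictMono (nn H c k nx) := strictMono_nat_of_lt_succ (nn_lt H c k nx hnx)

omit hnx in
theorem st2_mono {j l : ℕ} (h : j ≤ l) : (st H c k nx j).2 ≤ (st H c k nx l).2 := by
  induction l, h using Nat.le_induction with
  | base => exact le_rfl
  | succ l _ ih => exact ih.trans (Nat.le_add_right _ _)

omit hnx in
theorem le_st2 {j l i : ℕ} (h : j < l) (hi : i < k (nn H c k nx j + 1)) :
    |H j i| ≤ ((st H c k nx l).2 : ℤ) := by
  have h1 : (H j i).natAbs ≤ (st H c k nx (j + 1)).2 := by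
    have h2 : (H j i).natAbs ≤ ∑ i ∈ Finset.range (k (nn H c k nx j + 1)), (H j i).natAbs :=
      Finset.single_le_sum (f := fun i => (H j i).natAbs) (fun _ _ => Nat.zero_le _)
        (Finset.mem_range.2 hi)
    exact h2.trans (Nat.le_add_left _ _)
  have h3 := h1.trans (st2_mono H c k nx h)
  rw [Int.abs_eq_natAbs]
  exact_mod_cast h3

include hk

omit hnx in
theorem gg_last (n : ℕ) (hn : 0 < k (n + 1)) :
    gg H c k nx (k (n + 1) - 1) = (k (n + 2) : ℤ) + 1 := by
  have h : ∃ m, k (n + 1) - 1 + 1 = k (m + 1) := ⟨n, by omega⟩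
  unfold gg
  rw [dif_pos h]
  have h1 : k (n + 1) = k (h.choose + 1) := by
    have := h.choose_spec
    omega
  have h2 := hk.injective h1
  have h3 : h.choose = n := by omega
  rw [h3]

theorem gg_mid {j i : ℕ} (h1 : k (nn H c k nx j) ≤ i) (h2 : i + 1 < k (nn H c k nx j + 1)) :
    gg H c k nx i = -(H j i / c j) := by
  have h : ¬ ∃ n, i + 1 = k (n + 1) := by
    rintro ⟨n, hn⟩
    have h3 : nn H c k nx j < n + 1 := by
      rw [← hk.lt_iff_lt]; omega
    have h4 : n + 1 < nn H c k nx j + 1 := by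
      rw [← hk.lt_iff_lt]; omega
    omega
  have h' : ∃ j, k (nn H c k nx j) ≤ i ∧ i + 1 < k (nn H c k nx j + 1) := ⟨j, h1, h2⟩
  unfold gg
  rw [dif_neg h, dif_pos h']
  obtain ⟨h3, h4⟩ := h'.choose_spec
  have h5 : h'.choose = j := by
    apply (nn_mono H c k nx hnx).injective
    have e1 : nn H c k nx j < nn H c k nx h'.choose + 1 := by
      rw [← hk.lt_iff_lt]; omega
    have e2 : nn H c k nx h'.choose < nn H c k nx j + 1 := by
      rw [← hk.lt_iff_lt]; omega
    omega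
  rw [h5]

theorem gg_early {j i : ℕ} (hi : i < k (nn H c k nx j)) :
    |gg H c k nx i| ≤ (k (nn H c k nx j + 1) : ℤ) + 1 + (st H c k nx j).2 := by
  by_cases h : ∃ n, i + 1 = k (n + 1)
  · unfold gg
    rw [dif_pos h]
    have h1 : h.choose + 1 < nn H c k nx j + 1 := by
      have := h.choose_spec
      rw [← hk.lt_iff_lt]
      have h9 : k (nn H c k nx j) < k (nn H c k nx j + 1) := hk (Nat.lt_succ_self (nn H c k nx j))
      omega
    have h2 : k (h.choose + 2) ≤ k (nn H c k nx j + 1) := hk.monotone (by omega)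
    rw [abs_of_nonneg (by positivity)]
    have h3 : (k (h.choose + 2) : ℤ) ≤ (k (nn H c k nx j + 1) : ℤ) := by exact_mod_cast h2
    have h4 : (0 : ℤ) ≤ ((st H c k nx j).2 : ℤ) := by positivity
    linarith
  · by_cases h' : ∃ j, k (nn H c k nx j) ≤ i ∧ i + 1 < k (nn H c k nx j + 1)
    · unfold gg
      rw [dif_neg h, dif_pos h']
      obtain ⟨h3, h4⟩ := h'.choose_spec
      have h5 : h'.choose < j := by
        rw [← (nn_mono H c k nx hnx).lt_iff_lt, ← hk.lt_iff_lt]; omega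
      have h6 := le_st2 H c k nx h5 (i := i) (by omega)
      rw [abs_neg]
      have h7 : |H h'.choose i / (c h'.choose : ℤ)| ≤ |H h'.choose i| := Int.abs_ediv_le_abs _ _
      have h8 : (0 : ℤ) ≤ (k (nn H c k nx j + 1) : ℤ) := by positivity
      linarith
    · unfold gg
      rw [dif_neg h, dif_neg h', abs_zero]
      positivity

include hc

theorem gg_small (j : ℕ) : ∀ i < k (nn H c k nx j + 1) - 1,
    |(c j : ℤ) * gg H c k nx i + H j i| ≤ ((k (nn H c k nx j + 1) - 1 : ℕ) : ℤ) ^ 2 := by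
  intro i hi
  have hlt := hk (Nat.lt_succ_self (nn H c k nx j))
  have hge := nn_ge H c k nx hnx j
  have hid : nn H c k nx j ≤ k (nn H c k nx j) := hk.le_apply
  have hx : (c j + 1) * ((st H c k nx j).2 + 4) ≤ k (nn H c k nx j + 1) - 1 := by
    have : k (nn H c k nx j) ≤ k (nn H c k nx j + 1) - 1 := by
      have : k (nn H c k nx j) < k (nn H c k nx j + 1) := hlt
      omega
    omega
  obtain ⟨x, hx'⟩ : ∃ x, x = k (nn H c k nx j + 1) - 1 := ⟨_, rfl⟩
  have hx1 : k (nn H c k nx j + 1) = x + 1 := by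
    have : k (nn H c k nx j) < k (nn H c k nx j + 1) := hlt
    omega
  rw [← hx'] at hx hi ⊢
  have hxz : ((c j : ℤ) + 1) * (((st H c k nx j).2 : ℤ) + 4) ≤ (x : ℤ) := by exact_mod_cast hx
  have hcz : (1 : ℤ) ≤ (c j : ℤ) := by exact_mod_cast hc j
  have hBz : (0 : ℤ) ≤ ((st H c k nx j).2 : ℤ) := by positivity
  by_cases h : k (nn H c k nx j) ≤ i
  · rw [gg_mid H c k nx hnx hk h (by omega)]
    have h1 : (c j : ℤ) * -(H j i / c j) + H j i = H j i % c j := by
      have := Int.emod_add_mul_ediv (H j i) (c j)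
      linarith
    rw [h1, abs_of_nonneg (Int.emod_nonneg _ (by omega))]
    have h2 := Int.emod_lt_of_pos (H j i) (show (0 : ℤ) < c j by omega)
    nlinarith
  · push Not at h
    have h1 := gg_early H c k nx hnx hk h
    have h2 := nn_small H c k nx hnx j i h
    rw [hx1] at h1 h2
    push_cast at h1 h2
    have h3 : |(c j : ℤ) * gg H c k nx i + H j i| ≤ (c j : ℤ) * |gg H c k nx i| + |H j i| := by
      refine (abs_add_le _ _).trans ?_
      rw [abs_mul, abs_of_nonneg (show (0 : ℤ) ≤ c j by omega)]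
    have h4 : (c j : ℤ) * |gg H c k nx i| ≤ (c j : ℤ) * ((x : ℤ) + 1 + 1 + (st H c k nx j).2) :=
      mul_le_mul_of_nonneg_left h1 (by omega)
    have h5 : (c j : ℤ) * ((x : ℤ) + 1 + 1 + (st H c k nx j).2) + (x + 1) ≤ (x : ℤ) ^ 2 := by
      have hx4 : (4 : ℤ) ≤ x := by nlinarith
      nlinarith [mul_nonneg hBz (show (0 : ℤ) ≤ x by omega),
        mul_nonneg (show (0 : ℤ) ≤ (c j : ℤ) by omega) hBz,
        mul_le_mul_of_nonneg_right hxz (show (0 : ℤ) ≤ x by omega),
        mul_nonneg (mul_nonneg (show (0 : ℤ) ≤ (c j : ℤ) by omega) hBz)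
          (show (0 : ℤ) ≤ x by omega)]
    linarith

end step

/-- One step of the construction. -/
theorem extend (S : Submodule ℤ (ℕ → ℤ)) (hS : (S : Set (ℕ → ℤ)).Countable) (hsm : ∀ x ∈ S, Sm x)
    (k : ℕ → ℕ) (hk : StrictMono k) :
    ∃ g : ℕ → ℤ, Dom g k ∧ ∀ x ∈ S, ∀ c : ℤ, Sm (c • g + x) := by
  by_cases hA : ∃ x ∈ S, Dom x k
  · obtain ⟨g, hg, hgd⟩ := hA
    exact ⟨g, hgd, fun x hx c => hsm _ (S.add_mem (S.smul_mem c hg) hx)⟩
  push Not at hA
  have hA' : ∀ x ∈ S, ∀ M : ℕ, ∃ n ≥ M, ∀ i < k n, |x i| ≤ (k (n + 1) : ℤ) := by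
    intro x hx M
    have := hA x hx
    unfold Dom at this
    push Not at this
    exact this M
  haveI : Countable S := hS.to_subtype
  obtain ⟨d, hd⟩ := exists_surjective_nat (S × ℕ)
  let H : ℕ → ℕ → ℤ := fun j => ((d j.unpair.1).1 : ℕ → ℤ)
  let c : ℕ → ℕ := fun j => (d j.unpair.1).2 + 1
  have hH : ∀ j M, ∃ n ≥ M, ∀ i < k n, |H j i| ≤ (k (n + 1) : ℤ) := fun j M =>
    hA' _ (d j.unpair.1).1.2 M
  choose nx hnx using hH
  have hnx' : ∀ j M, M ≤ nx j M ∧ ∀ i < k (nx j M), |H j i| ≤ (k (nx j M + 1) : ℤ) := hnx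
  have hc : ∀ j, 1 ≤ c j := fun j => Nat.le_add_left _ _
  -- the positive multiples
  have hpos : ∀ x ∈ S, ∀ a : ℕ, Sm (((a + 1 : ℕ) : ℤ) • gg H c k nx + x) := by
    intro x hx a N
    obtain ⟨b, hb⟩ := hd (⟨x, hx⟩, a)
    let j := Nat.pair b N
    have hj1 : j.unpair.1 = b := by simp [j]
    have hj2 : N ≤ j := Nat.right_le_pair b N
    refine ⟨k (nn H c k nx j + 1) - 1, ?_, fun i hi => ?_⟩
    · have h1 : j ≤ nn H c k nx j := (nn_mono H c k nx hnx').le_apply
      have h2 : nn H c k nx j ≤ k (nn H c k nx j) := hk.le_apply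
      have h3 : k (nn H c k nx j) < k (nn H c k nx j + 1) := hk (Nat.lt_succ_self _)
      omega
    · have h1 := gg_small H c k nx hnx' hk hc j i hi
      have h2 : H j i = x i := by
        change ((d j.unpair.1).1 : ℕ → ℤ) i = x i
        rw [hj1, hb]
      have h3 : c j = a + 1 := by
        change (d j.unpair.1).2 + 1 = a + 1
        rw [hj1, hb]
      rw [h2, h3] at h1
      exact h1
  refine ⟨gg H c k nx, ⟨1, fun n hn => ?_⟩, fun x hx a => ?_⟩
  · obtain ⟨m, rfl⟩ : ∃ m, n = m + 1 := ⟨n - 1, by omega⟩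
    have h0 : 0 < k (m + 1) := Nat.lt_of_lt_of_le (Nat.succ_pos m) hk.le_apply
    refine ⟨k (m + 1) - 1, by omega, ?_⟩
    rw [gg_last H c k nx hk m h0, abs_of_nonneg (by positivity)]
    exact Int.lt_succ _
  · rcases lt_trichotomy a 0 with ha | ha | ha
    · obtain ⟨b, hb⟩ : ∃ b : ℕ, -a = ((b + 1 : ℕ) : ℤ) := ⟨(-a - 1).toNat, by omega⟩
      have h1 := hpos (-x) (S.neg_mem hx) b
      rw [← hb] at h1
      intro N
      obtain ⟨m, hm, hm'⟩ := h1 N
      refine ⟨m, hm, fun i hi => ?_⟩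
      have := hm' i hi
      rw [← abs_neg]
      refine le_trans (le_of_eq ?_) this
      congr 1
      simp only [Pi.add_apply, Pi.smul_apply, Pi.neg_apply, smul_eq_mul]
      ring
    · subst ha
      rw [zero_smul, zero_add]
      exact hsm x hx
    · obtain ⟨b, rfl⟩ : ∃ b : ℕ, a = ((b + 1 : ℕ) : ℤ) := ⟨(a - 1).toNat, by omega⟩
      exact hpos x hx b

/-! ### The transfinite construction -/

theorem span_countable {s : Set (ℕ → ℤ)} (hs : s.Countable) :
    (Submodule.span ℤ s : Set (ℕ → ℤ)).Countable := by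
  haveI := hs.to_subtype
  have h := Finsupp.range_linearCombination (M := ℕ → ℤ) (v := ((↑) : s → (ℕ → ℤ))) (R := ℤ)
  rw [Subtype.range_coe] at h
  rw [← h, LinearMap.coe_range]
  exact countable_range _

/-- the basic sequences -/
def Bs : Set (ℕ → ℤ) := range fun i : ℕ => (Pi.single i (1 : ℤ) : ℕ → ℤ)

theorem bs_countable : Bs.Countable := countable_range _

theorem sm_of_bs {x : ℕ → ℤ} (hx : x ∈ Submodule.span ℤ Bs) : Sm x := by
  have h : ∃ B : ℕ, ∀ i, |x i| ≤ (B : ℤ) := by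
    induction hx using Submodule.span_induction with
    | mem x hx =>
      obtain ⟨j, rfl⟩ := hx
      refine ⟨1, fun i => ?_⟩
      by_cases h : i = j
      · subst h; simp
      · simp [h]
    | zero => exact ⟨0, fun i => by simp⟩
    | add x y _ _ hx hy =>
      obtain ⟨B, hB⟩ := hx
      obtain ⟨C, hC⟩ := hy
      refine ⟨B + C, fun i => ?_⟩
      push_cast
      exact (abs_add_le _ _).trans (add_le_add (hB i) (hC i))
    | smul a x _ hx =>
      obtain ⟨B, hB⟩ := hx
      refine ⟨a.natAbs * B, fun i => ?_⟩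
      rw [Pi.smul_apply, smul_eq_mul, abs_mul, Int.abs_eq_natAbs a]
      push_cast
      exact mul_le_mul_of_nonneg_left (hB i) (by positivity)
  obtain ⟨B, hB⟩ := h
  intro N
  refine ⟨max N B, le_max_left _ _, fun i _ => (hB i).trans ?_⟩
  have h1 : (B : ℤ) ≤ ((max N B : ℕ) : ℤ) := by exact_mod_cast le_max_right N B
  have h2 : (0 : ℤ) ≤ (B : ℤ) := by positivity
  rcases Nat.eq_zero_or_pos B with h3 | h3
  · rw [h3]; positivity
  · have h4 : (1 : ℤ) ≤ (B : ℤ) := by exact_mod_cast h3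
    nlinarith

section trans

variable {K : Type} (r : K → K → Prop) [IsWellOrder K r] (kk : K → ℕ → ℕ)
  (hcount : ∀ a, {b | r b a}.Countable) (hkk : ∀ a, StrictMono (kk a))

open Classical in
/-- the chosen extension -/
noncomputable def ex (S : Submodule ℤ (ℕ → ℤ)) (k : ℕ → ℕ) : ℕ → ℤ :=
  if h : ∃ g : ℕ → ℤ, Dom g k ∧ ∀ x ∈ S, ∀ c : ℤ, Sm (c • g + x) then h.choose else 0

/-- the generators -/
noncomputable def Gn : K → ℕ → ℤ :=
  (IsWellFounded.wf : WellFounded r).fix fun a ih =>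
    ex (Submodule.span ℤ (Bs ∪ {x | ∃ (b : K) (h : r b a), x = ih b h})) (kk a)

/-- the submodule generated by the generators with index in `I` -/
def T (I : Set K) : Submodule ℤ (ℕ → ℤ) := Submodule.span ℤ (Bs ∪ Gn r kk '' I)

theorem Gn_eq (a : K) : Gn r kk a = ex (T r kk {b | r b a}) (kk a) := by
  unfold Gn
  rw [WellFounded.fix_eq]
  congr 1
  unfold T
  congr 2
  ext x
  constructor
  · rintro ⟨b, hb, rfl⟩
    exact ⟨b, hb, rfl⟩
  · rintro ⟨b, hb, rfl⟩
    exact ⟨b, hb, rfl⟩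

theorem T_mono {I J : Set K} (h : I ⊆ J) : T r kk I ≤ T r kk J :=
  Submodule.span_mono (union_subset_union_right _ (image_mono h))

theorem mem_T_cases {I : Set K} {x : ℕ → ℤ} (hx : x ∈ T r kk I) :
    x ∈ Submodule.span ℤ Bs ∨ ∃ a ∈ I, x ∈ T r kk (insert a {b | r b a}) := by
  unfold T at hx
  have hle : ∀ I : Set K, Submodule.span ℤ Bs ≤ T r kk I := fun I =>
    Submodule.span_mono subset_union_left
  have hmono : ∀ a b, r a b → T r kk (insert a {c | r c a}) ≤ T r kk (insert b {c | r c b}) := by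
    intro a b hab
    refine T_mono r kk ?_
    rintro c (rfl | hc)
    · exact Or.inr hab
    · exact Or.inr (_root_.trans hc hab)
  induction hx using Submodule.span_induction with
  | mem x hx =>
    rcases hx with hx | ⟨a, ha, rfl⟩
    · exact Or.inl (Submodule.subset_span hx)
    · exact Or.inr ⟨a, ha, Submodule.subset_span (Or.inr ⟨a, Or.inl rfl, rfl⟩)⟩
  | zero => exact Or.inl (Submodule.zero_mem _)
  | add x y _ _ hx hy =>
    rcases hx with hx | ⟨a, ha, hx⟩
    · rcases hy with hy | ⟨b, hb, hy⟩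
      · exact Or.inl (Submodule.add_mem _ hx hy)
      · exact Or.inr ⟨b, hb, Submodule.add_mem _ (hle _ hx) hy⟩
    · rcases hy with hy | ⟨b, hb, hy⟩
      · exact Or.inr ⟨a, ha, Submodule.add_mem _ hx (hle _ hy)⟩
      · rcases trichotomous_of r a b with hab | rfl | hab
        · exact Or.inr ⟨b, hb, Submodule.add_mem _ (hmono a b hab hx) hy⟩
        · exact Or.inr ⟨a, ha, Submodule.add_mem _ hx hy⟩
        · exact Or.inr ⟨a, ha, Submodule.add_mem _ hx (hmono b a hab hy)⟩
  | smul c x _ hx =>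
    rcases hx with hx | ⟨a, ha, hx⟩
    · exact Or.inl (Submodule.smul_mem _ _ hx)
    · exact Or.inr ⟨a, ha, Submodule.smul_mem _ _ hx⟩

include hcount hkk

theorem Gn_spec (a : K) (h : ∀ x ∈ T r kk {b | r b a}, Sm x) :
    Dom (Gn r kk a) (kk a) ∧ ∀ x ∈ T r kk {b | r b a}, ∀ c : ℤ, Sm (c • Gn r kk a + x) := by
  have h1 := extend (T r kk {b | r b a})
    (span_countable (bs_countable.union ((hcount a).image _))) h (kk a) (hkk a)
  rw [Gn_eq]
  unfold ex
  rw [dif_pos h1]
  exact h1.choose_spec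

theorem sm_of_insert (a : K) (h : ∀ x ∈ T r kk {b | r b a}, Sm x) :
    ∀ x ∈ T r kk (insert a {b | r b a}), Sm x := by
  intro x hx
  unfold T at hx
  rw [image_insert_eq, union_insert, Submodule.mem_span_insert] at hx
  obtain ⟨c, z, hz, rfl⟩ := hx
  exact (Gn_spec r kk hcount hkk a h).2 z hz c

theorem sm_T (a : K) : ∀ x ∈ T r kk {b | r b a}, Sm x := by
  induction a using (IsWellFounded.wf : WellFounded r).induction with
  | _ a ih =>
    intro x hx
    rcases mem_T_cases r kk hx with hx | ⟨b, hb, hx⟩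
    · exact sm_of_bs hx
    · exact sm_of_insert r kk hcount hkk b (ih b hb) x hx

theorem sm_univ : ∀ x ∈ T r kk univ, Sm x := by
  intro x hx
  rcases mem_T_cases r kk hx with hx | ⟨b, -, hx⟩
  · exact sm_of_bs hx
  · exact sm_of_insert r kk hcount hkk b (sm_T r kk hcount hkk b) x hx

theorem dom_univ (a : K) : Dom (Gn r kk a) (kk a) ∧ Gn r kk a ∈ T r kk univ :=
  ⟨(Gn_spec r kk hcount hkk a (sm_T r kk hcount hkk a)).1,
    Submodule.subset_span (Or.inr ⟨a, mem_univ a, rfl⟩)⟩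

end trans

/-- The group. -/
theorem exists_group (hCH : Cardinal.aleph 1 = Cardinal.continuum.{0}) :
    ∃ S : Submodule ℤ (ℕ → ℤ), (∀ x ∈ S, Sm x) ∧ (∀ i, (Pi.single i (1 : ℤ) : ℕ → ℤ) ∈ S) ∧
      ∀ k : ℕ → ℕ, StrictMono k → ∃ x ∈ S, Dom x k := by
  let K := {k : ℕ → ℕ // StrictMono k}
  obtain ⟨r, wo, hr⟩ := Cardinal.exists_ord_eq K
  have hcount : ∀ a : K, {b | r b a}.Countable := by
    intro a
    have h1 : Cardinal.mk {b | r b a} < Cardinal.mk K := by
      have h2 := Ordinal.typein_lt_type r a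
      rw [← hr] at h2
      have h3 := Cardinal.lt_ord.1 h2
      exact h3
    have h4 : Cardinal.mk K ≤ Cardinal.aleph 1 := by
      rw [hCH]
      refine (Cardinal.mk_subtype_le _).trans (le_of_eq ?_)
      rw [Cardinal.mk_arrow]
      simp
    have h5 := h1.trans_le h4
    rw [← Cardinal.succ_aleph0, Order.lt_succ_iff] at h5
    exact Cardinal.mk_le_aleph0_iff.1 h5
  refine ⟨T r (fun a : K => a.1) univ, sm_univ r _ hcount fun a => a.2, fun i => ?_, fun k hk => ?_⟩
  · exact Submodule.subset_span (Or.inl ⟨i, rfl⟩)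
  · have h := dom_univ r (fun a : K => a.1) hcount (fun a => a.2) ⟨k, hk⟩
    exact ⟨_, h.2, h.1⟩

end Pool.Agent.H656R2.OB
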