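import Pool.Agent.H656R2.OB.Core
import Pool.Agent.Results.MP_b00c97_gt.Square

/-!
The group as a topological group and the game on it.
-/

set_option autoImplicit false

open Set Topology

namespace Pool.Agent.H656R2.OB

open Pool.Agent.Results.MP_b00c97_gt.Square

variable (S : Submodule ℤ (ℕ → ℤ))

/-- the group written multiplicatively -/
abbrev Gp : Type := Multiplicative S

/-- the coordinates -/
def co (g : Gp S) (i : ℕ) : ℤ := ((Multiplicative.toAdd g : S) : ℕ → ℤ) i

theorem co_mul (g h : Gp S) (i : ℕ) : co S (g * h) i = co S g i + co S h i := rfl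

theorem co_one (i : ℕ) : co S (1 : Gp S) i = 0 := rfl

theorem co_inv (g : Gp S) (i : ℕ) : co S g⁻¹ i = -co S g i := rfl

/-- the basic neighbourhoods -/
def V (m : ℕ) : Set (Gp S) := {g | ∀ i < m, co S g i = 0}

theorem co_cont (i : ℕ) : Continuous fun g : Gp S => co S g i := by
  have h1 : Continuous fun x : S => (x : ℕ → ℤ) i :=
    (continuous_apply i).comp continuous_subtype_val
  exact h1.comp continuous_toAdd

theorem V_nhds (m : ℕ) : V S m ∈ 𝓝 (1 : Gp S) := by
  have h : IsOpen (V S m) := by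
    have : V S m = ⋂ i ∈ Finset.range m, (fun g : Gp S => co S g i) ⁻¹' {0} := by
      ext g
      simp [V]
    rw [this]
    exact isOpen_biInter_finset fun i _ => (isOpen_discrete _).preimage (co_cont S i)
  exact h.mem_nhds fun i _ => co_one S i

theorem exists_V {U : Set (Gp S)} (hU : U ∈ 𝓝 (1 : Gp S)) : ∃ m, V S m ⊆ U := by
  have h1 : (Multiplicative.ofAdd ⁻¹' U : Set S) ∈ 𝓝 (0 : S) :=
    (continuous_ofAdd.tendsto (0 : S)) hU
  rw [nhds_subtype_eq_comap, Filter.mem_comap] at h1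
  obtain ⟨W, hW, hWU⟩ := h1
  rw [nhds_pi, Filter.mem_pi] at hW
  obtain ⟨I, hI, t, ht, htW⟩ := hW
  obtain ⟨m, hm⟩ := hI.bddAbove
  refine ⟨m + 1, fun g hg => ?_⟩
  have h2 : (Multiplicative.toAdd g : S) ∈ (Multiplicative.ofAdd ⁻¹' U : Set S) := by
    apply hWU
    apply htW
    intro i hi
    have h3 : co S g i = 0 := hg i (Nat.lt_succ_of_le (hm hi))
    have h4 : ((Multiplicative.toAdd g : S) : ℕ → ℤ) i = 0 := h3
    rw [h4]
    exact mem_of_mem_nhds (ht i)
  exact h2

instance : TopologicalSpace.MetrizableSpace (Gp S) := by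
  have h : IsInducing (Multiplicative.toAdd : Gp S → S) :=
    (Homeomorph.mk (Multiplicative.toAdd : Gp S ≃ S) continuous_toAdd continuous_ofAdd).isInducing
  have : TopologicalSpace.MetrizableSpace (ℕ → ℤ) :=
    TopologicalSpace.metrizableSpace_of_t3_secondCountable _
  have : TopologicalSpace.MetrizableSpace S := IsEmbedding.subtypeVal.metrizableSpace
  have he : IsEmbedding (Multiplicative.toAdd : Gp S → S) :=
    ⟨h, Multiplicative.toAdd.injective⟩
  exact he.metrizableSpace

/-- If all elements are small infinitely often then the group is `o`-bounded. -/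
theorem obounded (hS : ∀ x ∈ S, Sm x) : OBounded (univ : Set (Gp S)) := by
  classical
  intro U hU
  choose m0 hm0 using fun n => exists_V S (hU n)
  -- increasing sequence
  let m : ℕ → ℕ := fun n => ∑ i ∈ Finset.range (n + 1), (m0 i + 1)
  have hm : StrictMono m := strictMono_nat_of_lt_succ fun n => by
    change ∑ i ∈ Finset.range (n + 1), (m0 i + 1) < ∑ i ∈ Finset.range (n + 1 + 1), (m0 i + 1)
    rw [Finset.sum_range_succ _ (n + 1)]
    omega
  have hmm : ∀ n, m0 n ≤ m n := fun n => by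
    change m0 n ≤ ∑ i ∈ Finset.range (n + 1), (m0 i + 1)
    rw [Finset.sum_range_succ]
    omega
  have hVU : ∀ n, V S (m n) ⊆ U n := fun n g hg => hm0 n fun i hi => hg i (hi.trans_le (hmm n))
  -- representatives
  have hfin : ∀ n, ∃ F : Finset (Gp S), ∀ g : Gp S, (∀ i < m n, |co S g i| ≤ (m (n + 1) : ℤ) ^ 2) →
      ∃ p ∈ F, ∀ i < m n, co S p i = co S g i := by
    intro n
    let B : ℤ := (m (n + 1) : ℤ) ^ 2
    let R : Set (Fin (m n) → Finset.Icc (-B) B) :=
      {s | ∃ g : Gp S, ∀ i : Fin (m n), co S g i = (s i : ℤ)}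
    have hR : ∀ s : Fin (m n) → Finset.Icc (-B) B, ∃ p : Gp S, s ∈ R → ∀ i : Fin (m n),
        co S p i = (s i : ℤ) := by
      intro s
      by_cases h : s ∈ R
      · obtain ⟨g, hg⟩ := h
        exact ⟨g, fun _ => hg⟩
      · exact ⟨1, fun h' => absurd h' h⟩
    choose p hp using hR
    refine ⟨Finset.univ.image p, fun g hg => ?_⟩
    let s : Fin (m n) → Finset.Icc (-B) B := fun i => ⟨co S g i, by
      rw [Finset.mem_Icc]
      exact abs_le.1 (hg i i.2)⟩
    refine ⟨p s, Finset.mem_image_of_mem _ (Finset.mem_univ _), fun i hi => ?_⟩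
    exact hp s ⟨g, fun _ => rfl⟩ ⟨i, hi⟩
  choose F hF using hfin
  refine ⟨F, fun g _ => ?_⟩
  obtain ⟨x, hx, hx'⟩ := hS _ (Multiplicative.toAdd g).2 (m 0)
  -- the interval of x
  have hex : ∃ n, m n ≤ x ∧ x < m (n + 1) := by
    have h1 : ∃ n, x < m n := ⟨x + 1, Nat.lt_of_lt_of_le (Nat.lt_succ_self x) hm.le_apply⟩
    have h2 := Nat.find_spec h1
    have h3 : Nat.find h1 ≠ 0 := by
      intro h
      rw [h] at h2
      omega
    refine ⟨Nat.find h1 - 1, ?_, ?_⟩
    · exact not_lt.1 (Nat.find_min h1 (by omega))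
    · rwa [Nat.sub_add_cancel (by omega)]
  obtain ⟨n, hn1, hn2⟩ := hex
  obtain ⟨p, hp, hp'⟩ := hF n g fun i hi => by
    refine (hx' i (hi.trans_le hn1)).trans ?_
    have : (x : ℤ) ≤ (m (n + 1) : ℤ) := by exact_mod_cast hn2.le
    exact pow_le_pow_left₀ (by positivity) this 2
  rw [mem_iUnion]
  refine ⟨n, ?_⟩
  rw [Set.mem_mul]
  refine ⟨p, hp, p⁻¹ * g, hVU n fun i hi => ?_, mul_inv_cancel_left _ _⟩
  rw [co_mul, co_inv, hp' i hi]
  ring

/-! ### The strategy of player I -/

/-- the index of the neighbourhood played by player I -/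
def ix (L : List (Finset (Gp S))) : ℕ :=
  L.foldl (fun m F => m + 1 + ∑ g ∈ F, ∑ i ∈ Finset.range m, (co S g i).natAbs) 1

/-- Player I wins. -/
theorem playerI (hB : ∀ i, (Pi.single i (1 : ℤ) : ℕ → ℤ) ∈ S)
    (hD : ∀ k : ℕ → ℕ, StrictMono k → ∃ x ∈ S, Dom x k) : PlayerIWins (univ : Set (Gp S)) := by
  refine ⟨fun L => V S (ix S L), fun L => V_nhds S _, fun F hcov => ?_⟩
  let a : ℕ → ℕ := fun n => ix S ((List.range n).map F)
  have ha : ∀ n, a (n + 1) = a n + 1 + ∑ g ∈ F n, ∑ i ∈ Finset.range (a n), (co S g i).natAbs := by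
    intro n
    change ix S ((List.range (n + 1)).map F) = _
    rw [List.range_succ, List.map_append, List.map_singleton]
    unfold ix
    rw [List.foldl_append]
    rfl
  have hmono : StrictMono a := strictMono_nat_of_lt_succ fun n => by rw [ha]; omega
  have ha1 : ∀ n, 1 ≤ a n := fun n => (hmono.monotone (Nat.zero_le n))
  obtain ⟨x, hx, N, hN⟩ := hD a hmono
  -- adjust the first coordinate
  let C : ℤ := |x 0| + a (N + 1) + 1 - x 0
  let y : ℕ → ℤ := x + C • Pi.single 0 1
  have hy : y ∈ S := S.add_mem hx (S.smul_mem _ (hB 0))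
  have hy0 : y 0 = |x 0| + a (N + 1) + 1 := by
    simp [y, C]
  have hyi : ∀ i, i ≠ 0 → y i = x i := by
    intro i hi
    simp [y, hi]
  have hlarge : ∀ n, ∃ i < a n, (a (n + 1) : ℤ) < |y i| := by
    intro n
    rcases Nat.lt_or_ge n N with hn | hn
    · refine ⟨0, ha1 n, ?_⟩
      rw [hy0, abs_of_nonneg (by positivity)]
      have h1 : (a (n + 1) : ℤ) ≤ (a (N + 1) : ℤ) := by
        exact_mod_cast hmono.monotone (by omega)
      have h2 := abs_nonneg (x 0)
      linarith
    · obtain ⟨i, hi, hi'⟩ := hN n hn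
      refine ⟨i, hi, ?_⟩
      by_cases h0 : i = 0
      · subst h0
        rw [hy0, abs_of_nonneg (by positivity)]
        have h2 : (0 : ℤ) ≤ (a (N + 1) : ℤ) := by positivity
        linarith
      · rw [hyi i h0]
        exact hi'
  have hyc := hcov (mem_univ (Multiplicative.ofAdd (⟨y, hy⟩ : S)))
  rw [mem_iUnion] at hyc
  obtain ⟨n, hn⟩ := hyc
  rw [Set.mem_mul] at hn
  obtain ⟨p, hp, v, hv, hpv⟩ := hn
  obtain ⟨i, hi, hi'⟩ := hlarge n
  have h1 : co S v i = 0 := hv i hi
  have h2 : co S (Multiplicative.ofAdd (⟨y, hy⟩ : S)) i = y i := rfl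
  rw [← hpv, co_mul, h1, add_zero] at h2
  have h3 : (co S p i).natAbs ≤ ∑ g ∈ F n, ∑ i ∈ Finset.range (a n), (co S g i).natAbs := by
    have e1 : (co S p i).natAbs ≤ ∑ i ∈ Finset.range (a n), (co S p i).natAbs :=
      Finset.single_le_sum (f := fun i => (co S p i).natAbs) (fun _ _ => Nat.zero_le _)
        (Finset.mem_range.2 hi)
    exact e1.trans (Finset.single_le_sum
      (f := fun g => ∑ i ∈ Finset.range (a n), (co S g i).natAbs) (fun _ _ => Nat.zero_le _) hp)
  have h4 := ha n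
  rw [← h2, Int.abs_eq_natAbs] at hi'
  have h5 : a (n + 1) < (co S p i).natAbs := by exact_mod_cast hi'
  omega

end Pool.Agent.H656R2.OB
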